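import Pool.Agent.helper56.P3.Defs2

/-!
# P3-K1 (helper13): the field `K`
-/

namespace Pool.Agent.helper56.P3

open Finset Pool.Agent.helper56.Per Polynomial IntermediateField

/-! ### cycle points are algebraic over the field of the coefficients -/

section Alg

variable {F Ω : Type*} [Field F] [Field Ω] [Algebra F Ω]

/-- homogeneous iterates of `z (z + a) / (b z + 1)` as polynomials -/
noncomputable def PQ (a b : F) : ℕ → F[X] × F[X]
  | 0 => (X, 1)
  | j + 1 => ((PQ a b j).1 * ((PQ a b j).1 + C a * (PQ a b j).2),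
      (PQ a b j).2 * (C b * (PQ a b j).1 + (PQ a b j).2))

theorem PQ_eval {a b : F} {n : ℕ} {lam : Ω} {z : ℕ → Ω}
    (h : NCyc (algebraMap F Ω a) (algebraMap F Ω b) n lam z) (i j : ℕ) :
    aeval (z i) (PQ a b j).2 ≠ 0 ∧ aeval (z i) (PQ a b j).1 = z (i + j) * aeval (z i) (PQ a b j).2 := by
  induction j with
  | zero => simp [PQ]
  | succ j ih =>
    obtain ⟨h1, h2⟩ := ih
    have h3 := h.den (i + j)
    have h4 := h.step (i + j)
    simp only [PQ, map_mul, map_add, aeval_C, h2]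
    constructor
    · have : algebraMap F Ω b * (z (i + j) * aeval (z i) (PQ a b j).2) + aeval (z i) (PQ a b j).2
          = (algebraMap F Ω b * z (i + j) + 1) * aeval (z i) (PQ a b j).2 := by ring
      rw [this]
      exact mul_ne_zero h1 (mul_ne_zero h3 h1)
    · rw [← add_assoc]
      linear_combination -(aeval (z i) (PQ a b j).2) ^ 2 * h4

theorem alg_of_cyc {a b : F} {n : ℕ} {lam : Ω} {z : ℕ → Ω}
    (h : NCyc (algebraMap F Ω a) (algebraMap F Ω b) n lam z) (hab : a * b ≠ 1)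
    (hne : a ≠ 0 ∨ b ≠ 0) (i : ℕ) : IsAlgebraic F (z i) := by
  have hn := h.npos
  refine ⟨(PQ a b n).1 - X * (PQ a b n).2, ?_, ?_⟩
  · intro h0
    obtain ⟨m, rfl⟩ : ∃ m, n = m + 1 := ⟨n - 1, by omega⟩
    rcases hne with ha | hb
    · have key : ∀ j, (PQ a b (j + 1)).1.eval (-a) = 0 ∧ (PQ a b (j + 1)).2.eval (-a) ≠ 0 := by
        intro j
        induction j with
        | zero =>
          simp only [PQ, eval_mul, eval_add, eval_X, eval_C, eval_one]
          constructor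
          · ring
          · intro h1
            apply hab
            linear_combination -h1
        | succ j ih =>
          rw [PQ]
          simp only [eval_mul, eval_add, eval_C, ih.1]
          constructor
          · ring
          · simpa using ih.2
      have h1 := congrArg (eval (-a)) h0
      simp only [eval_sub, eval_mul, eval_X, (key m).1, eval_zero] at h1
      have h2 : a * (PQ a b (m + 1)).2.eval (-a) = 0 := by linear_combination h1
      exact mul_ne_zero ha (key m).2 h2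
    · have key : ∀ j, (PQ a b (j + 1)).2.eval (-b⁻¹) = 0 ∧ (PQ a b (j + 1)).1.eval (-b⁻¹) ≠ 0 := by
        intro j
        induction j with
        | zero =>
          simp only [PQ, eval_mul, eval_add, eval_X, eval_C, eval_one]
          constructor
          · field_simp; ring
          · refine mul_ne_zero (neg_ne_zero.2 (inv_ne_zero hb)) ?_
            intro h1
            apply hab
            have h2 : b * (-b⁻¹ + a * 1) = 0 := by rw [h1, mul_zero]
            have h3 : b * b⁻¹ = 1 := mul_inv_cancel₀ hb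
            linear_combination h2 + h3
        | succ j ih =>
          rw [PQ]
          simp only [eval_mul, eval_add, eval_C, ih.1]
          constructor
          · ring
          · simpa using ih.2
      have h1 := congrArg (eval (-b⁻¹)) h0
      simp only [eval_sub, eval_mul, eval_X, (key m).1, eval_zero, mul_zero, sub_zero] at h1
      exact (key m).2 h1
  · have h1 := (PQ_eval h i n).2
    rw [h.per] at h1
    rw [map_sub, map_mul, aeval_X, h1, sub_self]

end Alg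

/-! ### transfer of cycles along embeddings -/

theorem NCyc.comap' {K Ω : Type*} [Field K] [Field Ω] (φ : K →+* Ω) {a b lam : K} {n : ℕ}
    {z : ℕ → K} (h : NCyc (φ a) (φ b) n (φ lam) (fun i => φ (z i))) : NCyc a b n lam z := by
  have hφ := φ.injective
  refine ⟨h.npos, fun i h0 => h.ne0 i (by simp [h0]), fun i h0 => h.den i ?_, fun i => hφ ?_,
    fun i => hφ (h.per i), fun i h0 => h.ne i (by simp [h0]), hφ ?_⟩
  · rw [← map_mul, ← map_one φ, ← map_add, h0, map_zero]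
  · have := h.step i
    simpa only [map_mul, map_add, map_one] using this
  · have := h.mul
    simpa only [map_mul, map_add, map_one, map_prod, map_pow, map_ofNat] using this

theorem NCyc.map' {K Ω : Type*} [Field K] [Field Ω] (φ : K →+* Ω) {a b lam : K} {n : ℕ}
    {z : ℕ → K} (h : NCyc a b n lam z) : NCyc (φ a) (φ b) n (φ lam) (fun i => φ (z i)) := by
  have hφ := φ.injective
  refine ⟨h.npos, fun i => ?_, fun i => ?_, fun i => ?_, fun i => ?_, fun i h0 => h.ne i (hφ h0), ?_⟩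
  · exact (_root_.map_ne_zero φ).2 (h.ne0 i)
  · rw [← map_mul, ← map_one φ, ← map_add]
    exact (_root_.map_ne_zero φ).2 (h.den i)
  · have := congrArg φ (h.step i)
    simpa only [map_mul, map_add, map_one] using this
  · simp only [h.per]
  · have := congrArg φ h.mul
    simpa only [map_mul, map_add, map_one, map_prod, map_pow, map_ofNat] using this

/-! ### the generic point with exact cycles -/

theorem cls_exact {n : ℕ} {z : ℕ → ℕ → ℂ} (h : ∀ j, Exact n (z j)) :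
    Exact n (fun i => cls (fun j => z j i)) := by
  intro i i' h0
  have h1 : (fun j => z j i) =ᶠ[((Filter.hyperfilter ℕ : Ultrafilter ℕ) : Filter ℕ)] fun j => z j i' :=
    Filter.Germ.coe_eq.1 h0
  obtain ⟨j, hj⟩ := h1.exists
  exact h j i i' hj

theorem exact_of_isPer {f : QMap} {n : ℕ} {lam w : ℂ} (hz : IsPer f n lam w) :
    Exact n (fun i => f.toFun^[i] w) := by
  obtain ⟨h1, _, h3, _⟩ := hz
  intro i j h0
  simp only at h0
  rw [← Function.iterate_mod_minimalPeriod_eq (n := i), ← Function.iterate_mod_minimalPeriod_eq (n := j),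
    h3] at h0
  exact (Function.iterate_injOn_Iio_minimalPeriod (f := f.toFun) (x := w)).eq_iff
    (by rw [h3]; exact Nat.mod_lt _ h1) (by rw [h3]; exact Nat.mod_lt _ h1) |>.1 h0

/-- the set of pairs with exact disjoint cycles -/
def QE (n m : ℕ) (lam lam' a b : ℂ) : Prop :=
  ∃ z y : ℕ → ℂ, NCyc a b n lam z ∧ NCyc a b m lam' y ∧ Exact n z ∧ Exact m y ∧ ∀ i j, z i ≠ y j

theorem common_infinite_exact {n m : ℕ} {lam lam' : ℂ} (hn : 2 ≤ n) (hm : 2 ≤ m)
    (h : (common n m lam lam').Infinite) :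
    {x : ℂ × ℂ | x.1 * x.2 ≠ 1 ∧ QE n m lam lam' x.1 x.2}.Infinite := by
  apply infinite_of_image h
  rintro c ⟨f, z, y, rfl, hz, hy, hd⟩
  obtain ⟨w1, w2, d, hw, hw1, hw2⟩ := exists_fixed f
  rcases second_fixed f hw hw1 hw2 with ⟨u1, u2, c, hdet, hu1, hu2⟩ | hS
  · left
    obtain ⟨a, b, hN⟩ := hasN_of_fixed f hdet hu1 hu2 hw1 hw2
    obtain ⟨hz1, hz2⟩ := hN.ncyc hz hn
    obtain ⟨hy1, hy2⟩ := hN.ncyc hy hm
    refine ⟨(a, b), ⟨hN.ab, _, _, hz1, hy1, ?_, ?_, fun i j h0 => ?_⟩, Phi_eq hN⟩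
    · intro i j h0
      exact exact_of_isPer hz i j (hN.inj (hz2 i) (hz2 j) h0)
    · intro i j h0
      exact exact_of_isPer hy i j (hN.inj (hy2 i) (hy2 j) h0)
    · exact hz.disjoint hy hd i j (hN.inj (hz2 i) (hy2 j) h0)
  · right
    exact hS

theorem generic_exact {n m : ℕ} {lam lam' : ℂ}
    (h : {x : ℂ × ℂ | x.1 * x.2 ≠ 1 ∧ QE n m lam lam' x.1 x.2}.Infinite) :
    ∃ (a b : KK) (z y : ℕ → KK), a * b ≠ 1 ∧
      ¬ (a ∈ Set.range (algebraMap ℂ KK) ∧ b ∈ Set.range (algebraMap ℂ KK)) ∧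
      NCyc a b n (algebraMap ℂ KK lam) z ∧ NCyc a b m (algebraMap ℂ KK lam') y ∧
      Exact n z ∧ Exact m y ∧ ∀ i j, z i ≠ y j := by
  let e := h.natEmbedding
  have he : ∀ j, (e j).1.1 * (e j).1.2 ≠ 1 ∧ QE n m lam lam' (e j).1.1 (e j).1.2 := fun j => (e j).2
  choose h1 z y hz hy hzx hyx hne using he
  refine ⟨cls fun j => (e j).1.1, cls fun j => (e j).1.2, _, _, ?_, ?_, NCyc.cls hz, NCyc.cls hy,
    cls_exact hzx, cls_exact hyx, fun i k => cls_ne fun j => hne j i k⟩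
  · rw [← map_mul, ← map_one cls]
    exact cls_ne h1
  · rintro ⟨⟨α, hα⟩, ⟨β, hβ⟩⟩
    exact not_both_const (a := fun j => (e j).1.1) (b := fun j => (e j).1.2)
      (fun i j hij => e.injective (Subtype.ext hij)) ⟨α, β, hα.symm, hβ.symm⟩

theorem adj_alg {k Ω : Type} [Field k] [Field Ω] [Algebra k Ω] (t : Ω) :
    Algebra.IsAlgebraic (Algebra.adjoin k {AdjoinSimple.gen k t}) k⟮t⟯ := by
  refine ⟨fun w => ?_⟩
  obtain ⟨r, s, hw⟩ := IntermediateField.mem_adjoin_simple_iff k (w : Ω) |>.1 w.2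
  have hm : ∀ r : k[X], aeval (AdjoinSimple.gen k t) r ∈ Algebra.adjoin k {AdjoinSimple.gen k t} :=
    fun r => aeval_mem_adjoin_singleton k _
  by_cases hs : aeval t s = 0
  · have : w = 0 := Subtype.ext (by rw [hw, hs, div_zero]; rfl)
    rw [this]
    exact isAlgebraic_zero
  · have hgen : ∀ r : k[X], ((aeval (AdjoinSimple.gen k t) r : k⟮t⟯) : Ω) = aeval t r := by
      intro r
      exact (IntermediateField.aeval_coe (k⟮t⟯) (AdjoinSimple.gen k t) r).symm
    refine ⟨C (⟨_, hm s⟩ : Algebra.adjoin k {AdjoinSimple.gen k t}) * X - C ⟨_, hm r⟩, ?_, ?_⟩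
    · intro h0
      have h1 := congrArg (fun p => coeff p 1) h0
      simp only [coeff_sub, coeff_C_mul, coeff_X_one, mul_one, coeff_zero, coeff_C_of_ne_zero one_ne_zero,
        sub_zero] at h1
      apply hs
      rw [← hgen]
      have h2 := congrArg (fun p : Algebra.adjoin k {AdjoinSimple.gen k t} => ((p : k⟮t⟯) : Ω)) h1
      simpa using h2
    · rw [map_sub, map_mul, aeval_X, aeval_C, aeval_C]
      apply Subtype.ext
      change ((aeval (AdjoinSimple.gen k t) s : k⟮t⟯) : Ω) * w - ((aeval (AdjoinSimple.gen k t) r : k⟮t⟯) : Ω) = 0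
      rw [hgen, hgen, hw]
      field_simp
      ring

theorem td1 {k Ω : Type} [Field k] [Field Ω] [Algebra k Ω] (t : Ω) :
    TD1 k (algebraicClosure k⟮t⟯ Ω) := by
  intro u x hux
  have h1 := hux.cardinalMk_le_trdeg
  have i1 : FaithfulSMul k⟮t⟯ (algebraicClosure k⟮t⟯ Ω) :=
    (faithfulSMul_iff_algebraMap_injective _ _).2 (RingHom.injective _)
  have i2 : FaithfulSMul k k⟮t⟯ := (faithfulSMul_iff_algebraMap_injective _ _).2 (RingHom.injective _)
  have h2 := _root_.trdeg_add_eq k k⟮t⟯ (A := algebraicClosure k⟮t⟯ Ω)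
  have h3 : Algebra.trdeg k⟮t⟯ (algebraicClosure k⟮t⟯ Ω) = 0 := _root_.trdeg_eq_zero
  have i3 := adj_alg (k := k) t
  have h4 := Algebra.IsAlgebraic.trdeg_le_cardinalMk k ({AdjoinSimple.gen k t} : Set k⟮t⟯)
  rw [h3, add_zero] at h2
  rw [← h2] at h1
  have h5 := h1.trans h4
  simp at h5

/-- no valuation with two large fixed multipliers -/
theorem alg_of_large {k Ω : Type} [Field k] [Field Ω] [Algebra k Ω] {a b : Ω} {n : ℕ} {l : k}
    {z : ℕ → Ω} (h : NCyc a b n (algebraMap k Ω l) z) (ha : Transcendental k a) :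
    IsAlgebraic k⟮a⟯ b := by
  by_contra hb
  have hb' : Transcendental k⟮a⟯ b⁻¹ := by
    intro h1
    apply hb
    rw [← inv_inv b]
    exact h1.inv
  have ha' : Transcendental k (AdjoinSimple.gen k a)⁻¹ := by
    intro h1
    apply ha
    have h2 := h1.inv
    rw [inv_inv] at h2
    have h3 := h2.algebraMap (A := Ω)
    exact h3
  obtain ⟨O1, hO1, hO1a⟩ := exists_ext (⊤ : ValuationSubring k) ha'
  obtain ⟨B, hB, hBb⟩ := exists_ext O1 hb'
  have hE : Ext O1 B.valuation := hB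
  have h1 : B.valuation a⁻¹ < 1 := by
    have := (hE.lt_one_iff _).2 hO1a
    rw [map_inv₀] at this
    exact this
  have hva : 1 < B.valuation a := by
    have ha0 : a ≠ 0 := fun h0 => ha (h0 ▸ isAlgebraic_zero)
    rw [map_inv₀] at h1
    exact (inv_lt_one₀ (by rw [zero_lt_iff]; exact (B.valuation.ne_zero_iff).2 ha0)).1 h1
  have hvb : 1 < B.valuation b := by
    have hb0 : b ≠ 0 := fun h0 => hb (h0 ▸ isAlgebraic_zero)
    rw [map_inv₀] at hBb
    exact (inv_lt_one₀ (by rw [zero_lt_iff]; exact (B.valuation.ne_zero_iff).2 hb0)).1 hBb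
  have h2 := H_gt B.valuation hva hvb h
  have h3 : B.valuation (algebraMap k Ω l) ≤ 1 := by
    have e : algebraMap k Ω l = algebraMap k⟮a⟯ Ω (algebraMap k k⟮a⟯ l) := rfl
    rw [e, hB, hO1]
    exact ((⊤ : ValuationSubring k).valuation_le_one_iff l).2 trivial
  exact absurd h2 (not_lt.2 h3)



theorem mem_range_of_alg {k Ω : Type} [Field k] [Field Ω] [Algebra k Ω] [IsAlgClosed k] {w : Ω}
    (hw : IsAlgebraic k w) : w ∈ Set.range (algebraMap k Ω) :=
  minpoly.mem_range_of_degree_eq_one k w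
    (IsAlgClosed.degree_eq_one_of_irreducible k (minpoly.irreducible hw.isIntegral))

theorem fields_step {k K Ω : Type} [Field k] [Field K] [Field Ω] [Algebra k K] [Algebra K Ω]
    [Algebra k Ω] [IsScalarTower k K Ω] [IsAlgClosed K] {a b : K} {n m : ℕ} {l l' : k}
    {z y : ℕ → Ω}
    (hz : NCyc (algebraMap K Ω a) (algebraMap K Ω b) n (algebraMap k Ω l) z)
    (hy : NCyc (algebraMap K Ω a) (algebraMap K Ω b) m (algebraMap k Ω l') y)
    (hab : a * b ≠ 1) (hnc : ¬ (a ∈ Set.range (algebraMap k K) ∧ b ∈ Set.range (algebraMap k K)))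
    (hzx : Exact n z) (hyx : Exact m y) (hne : ∀ i j, z i ≠ y j) :
    ∃ (z' y' : ℕ → K), NCyc a b n (algebraMap k K l) z' ∧ NCyc a b m (algebraMap k K l') y' ∧
      Exact n z' ∧ Exact m y' ∧ ∀ i j, z' i ≠ y' j := by
  have hor : a ≠ 0 ∨ b ≠ 0 := by
    by_contra hc
    push Not at hc
    exact hnc ⟨⟨0, by rw [map_zero, hc.1]⟩, ⟨0, by rw [map_zero, hc.2]⟩⟩
  have h1 : ∀ i, ∃ w : K, algebraMap K Ω w = z i := fun i =>
    mem_range_of_alg (alg_of_cyc hz hab hor i)
  have h2 : ∀ i, ∃ w : K, algebraMap K Ω w = y i := fun i =>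
    mem_range_of_alg (alg_of_cyc hy hab hor i)
  choose z' hz' using h1
  choose y' hy' using h2
  have ez : (fun i => algebraMap K Ω (z' i)) = z := funext hz'
  have ey : (fun i => algebraMap K Ω (y' i)) = y := funext hy'
  refine ⟨z', y', NCyc.comap' (algebraMap K Ω) ?_, NCyc.comap' (algebraMap K Ω) ?_, ?_, ?_, ?_⟩
  · rw [ez, ← IsScalarTower.algebraMap_apply]
    exact hz
  · rw [ey, ← IsScalarTower.algebraMap_apply]
    exact hy
  · intro i j h0
    exact hzx i j (by rw [← hz', ← hz', h0])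
  · intro i j h0
    exact hyx i j (by rw [← hy', ← hy', h0])
  · intro i j h0
    exact hne i j (by rw [← hz', ← hy', h0])

/-- the field extension, abstractly -/
theorem fields_abs {k Ω : Type} [Field k] [Field Ω] [Algebra k Ω] [IsAlgClosed k] [IsAlgClosed Ω]
    {a b : Ω} {n m : ℕ} {l l' : k} {z y : ℕ → Ω}
    (hz : NCyc a b n (algebraMap k Ω l) z) (hy : NCyc a b m (algebraMap k Ω l') y)
    (hab : a * b ≠ 1)
    (hnc : ¬ (a ∈ Set.range (algebraMap k Ω) ∧ b ∈ Set.range (algebraMap k Ω)))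
    (hzx : Exact n z) (hyx : Exact m y) (hne : ∀ i j, z i ≠ y j) :
    ∃ (K : Type) (_ : Field K) (_ : Algebra k K) (_ : IsAlgClosed K) (a' b' : K) (z' y' : ℕ → K),
      TD1 k K ∧ a' * b' ≠ 1 ∧
      ¬ (a' ∈ Set.range (algebraMap k K) ∧ b' ∈ Set.range (algebraMap k K)) ∧
      NCyc a' b' n (algebraMap k K l) z' ∧ NCyc a' b' m (algebraMap k K l') y' ∧ Exact n z' ∧
      Exact m y' ∧ ∀ i j, z' i ≠ y' j := by
  obtain ⟨t, hta, htb⟩ : ∃ t : Ω, IsAlgebraic k⟮t⟯ a ∧ IsAlgebraic k⟮t⟯ b := by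
    by_cases ha : IsAlgebraic k a
    · obtain ⟨α, hα⟩ := mem_range_of_alg ha
      refine ⟨b, ?_, ?_⟩
      · have : a = algebraMap k⟮b⟯ Ω (algebraMap k k⟮b⟯ α) := hα.symm
        rw [this]
        exact isAlgebraic_algebraMap _
      · exact isAlgebraic_algebraMap (A := Ω) (AdjoinSimple.gen k b)
    · refine ⟨a, ?_, alg_of_large hz ha⟩
      exact isAlgebraic_algebraMap (A := Ω) (AdjoinSimple.gen k a)
  have hcl : IsAlgClosed (algebraicClosure k⟮t⟯ Ω) := (algebraicClosure.isAlgClosure k⟮t⟯ Ω).isAlgClosed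
  have ma : a ∈ algebraicClosure k⟮t⟯ Ω := mem_algebraicClosure_iff.2 hta
  have mb : b ∈ algebraicClosure k⟮t⟯ Ω := mem_algebraicClosure_iff.2 htb
  have hnc' : ¬ ((⟨a, ma⟩ : algebraicClosure k⟮t⟯ Ω) ∈ Set.range (algebraMap k (algebraicClosure k⟮t⟯ Ω)) ∧
      (⟨b, mb⟩ : algebraicClosure k⟮t⟯ Ω) ∈ Set.range (algebraMap k (algebraicClosure k⟮t⟯ Ω))) := by
    rintro ⟨⟨α, hα⟩, ⟨β, hβ⟩⟩
    exact hnc ⟨⟨α, congrArg Subtype.val hα⟩, ⟨β, congrArg Subtype.val hβ⟩⟩
  have hab' : (⟨a, ma⟩ : algebraicClosure k⟮t⟯ Ω) * ⟨b, mb⟩ ≠ 1 := fun h0 => hab (congrArg Subtype.val h0)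
  have hst : IsScalarTower k (algebraicClosure k⟮t⟯ Ω) Ω := IsScalarTower.of_algebraMap_eq fun x => rfl
  obtain ⟨z', y', h1, h2, h3, h4, h5⟩ := fields_step (k := k) (K := algebraicClosure k⟮t⟯ Ω)
    (a := ⟨a, ma⟩) (b := ⟨b, mb⟩) hz hy hab' hnc' hzx hyx hne
  exact ⟨_, inferInstance, inferInstance, hcl, _, _, z', y', td1 t, hab', hnc', h1, h2, h3, h4, h5⟩

theorem final_abs {n m : ℕ} {lam lam' : ℂ} {k Ω : Type} [Field k] [Field Ω] [Algebra k Ω]
    [IsAlgClosed k] [IsAlgClosed Ω] [CharZero k] [Algebra.IsAlgebraic ℚ k] (ι : k →+* ℂ)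
    (ψ : KK →+* Ω) (hc : ∀ x, algebraMap k Ω x = ψ (algebraMap ℂ KK (ι x))) {l l' : k}
    (hl : ι l = lam) (hl' : ι l' = lam') (hn : 2 ≤ n) (hm : 2 ≤ m)
    (h : (common n m lam lam').Infinite) :
    ∃ (K : Type) (_ : Field K) (_ : Algebra k K) (_ : IsAlgClosed K) (a' b' : K) (z' y' : ℕ → K),
      TD1 k K ∧ a' * b' ≠ 1 ∧
      ¬ (a' ∈ Set.range (algebraMap k K) ∧ b' ∈ Set.range (algebraMap k K)) ∧
      NCyc a' b' n (algebraMap k K l) z' ∧ NCyc a' b' m (algebraMap k K l') y' ∧ Exact n z' ∧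
      Exact m y' ∧ ∀ i j, z' i ≠ y' j := by
  obtain ⟨a, b, z, y, hab, hnc, hz, hy, hzx, hyx, hne⟩ :=
    generic_exact (common_infinite_exact hn hm h)
  have hψ := ψ.injective
  have hz' := NCyc.map' ψ hz
  have hy' := NCyc.map' ψ hy
  rw [← hl, ← hc] at hz'
  rw [← hl', ← hc] at hy'
  refine fields_abs hz' hy' ?_ ?_ ?_ ?_ ?_
  · rw [← map_mul, ← map_one ψ]
    exact fun h0 => hab (hψ h0)
  · rintro ⟨⟨α, hα⟩, ⟨β, hβ⟩⟩
    rw [hc] at hα hβ
    exact hnc ⟨⟨_, hψ hα⟩, ⟨_, hψ hβ⟩⟩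
  · intro i j h0
    exact hzx i j (hψ h0)
  · intro i j h0
    exact hyx i j (hψ h0)
  · intro i j h0
    exact hne i j (hψ h0)

/-- transfer from `common` : there are fields as in `main_generic` -/
theorem exists_fields {n m : ℕ} {lam lam' : ℂ} (hn : 2 ≤ n) (hm : 2 ≤ m)
    (h : (common n m lam lam').Infinite) :
    ∃ (k K : Type) (_ : Field k) (_ : Field K) (_ : Algebra k K) (_ : IsAlgClosed k)
      (_ : IsAlgClosed K) (_ : CharZero k) (_ : Algebra.IsAlgebraic ℚ k) (l l' : k)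
      (ι : k →+* ℂ) (a b : K) (z y : ℕ → K), ι l = lam ∧ ι l' = lam' ∧ TD1 k K ∧ a * b ≠ 1 ∧
      ¬ (a ∈ Set.range (algebraMap k K) ∧ b ∈ Set.range (algebraMap k K)) ∧
      NCyc a b n (algebraMap k K l) z ∧ NCyc a b m (algebraMap k K l') y ∧ Exact n z ∧
      Exact m y ∧ ∀ i j, z i ≠ y j := by
  have hlam : IsAlgebraic ℚ lam := (algebraic_aux (main h).2.2.2.1).1
  have hlam' : IsAlgebraic ℚ lam' := (algebraic_aux fun O => ((main h).2.2.2.1 O).symm).1
  let ι : algebraicClosure ℚ ℂ →+* ℂ := algebraMap (algebraicClosure ℚ ℂ) ℂ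
  let ψ : KK →+* AlgebraicClosure KK := algebraMap KK (AlgebraicClosure KK)
  have i1 : IsAlgClosed (algebraicClosure ℚ ℂ) := (algebraicClosure.isAlgClosure ℚ ℂ).isAlgClosed
  have i2 : CharZero (algebraicClosure ℚ ℂ) := ⟨fun a b hab => by
    have := congrArg ι hab
    simpa using this⟩
  let f : algebraicClosure ℚ ℂ →ₐ[ℚ] ℂ := ι.toRatAlgHom
  have i3 : Algebra.IsAlgebraic ℚ (algebraicClosure ℚ ℂ) := ⟨fun x => by
    have h1 : IsAlgebraic ℚ (x : ℂ) := mem_algebraicClosure_iff.1 x.2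
    exact (isAlgebraic_algHom_iff f ι.injective).1 h1⟩
  letI alg : Algebra (algebraicClosure ℚ ℂ) (AlgebraicClosure KK) :=
    (ψ.comp ((algebraMap ℂ KK).comp ι)).toAlgebra
  obtain ⟨K, iK, iA, iC, a, b, z, y, h1, h2, h3, h4, h5, h6, h7, h8⟩ :=
    final_abs (k := algebraicClosure ℚ ℂ) (Ω := AlgebraicClosure KK) ι ψ (fun x => rfl)
      (l := ⟨lam, mem_algebraicClosure_iff.2 hlam⟩) (l' := ⟨lam', mem_algebraicClosure_iff.2 hlam'⟩)
      rfl rfl hn hm h
  exact ⟨_, K, inferInstance, iK, iA, i1, iC, i2, i3, _, _, ι, a, b, z, y, rfl, rfl, h1, h2, h3, h4,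
    h5, h6, h7, h8⟩

end Pool.Agent.helper56.P3
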